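import Pool.Agent.Q233.PI.Exist

/-!
# The amplitudes of the code and the reduced Knill-Laflamme equations
-/

namespace Pool.Agent.Q233.PI

open Finset

set_option maxRecDepth 100000

/-- shifted binomial coefficient -/
def bin (j p : ℕ) : ℕ := if p ≤ j then Nat.choose 51 (j - p) else 0

/-- the same from the table -/
def bt (j p : ℕ) : ℕ := if p ≤ j then tb.getD (j - p) 0 else 0

theorem tb_chk : ∀ k < 60, Nat.choose 51 k = tb.getD k 0 := by
  intro k hk
  rcases le_or_gt k 51 with h | h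
  · rw [Nat.choose_eq_factorial_div_factorial h]
    have : ∀ k ≤ 51, Nat.factorial 51 / (Nat.factorial k * Nat.factorial (51 - k)) = tb.getD k 0 := by
      decide +kernel
    exact this k h
  · rw [Nat.choose_eq_zero_of_lt h]
    have : ∀ k < 60, 51 < k → 0 = tb.getD k 0 := by decide +kernel
    exact this k hk h

lemma bin_eq {j p : ℕ} (hj : j < 60) : bin j p = bt j p := by
  unfold bin bt
  split_ifs with h
  · exact tb_chk _ (by omega)
  · rfl

/-- parameters `(p, d)` of the equations of hermitian type -/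
def PH : List (ℕ × ℕ) := [(0, 0), (1, 0), (2, 0), (3, 0), (0, 1), (1, 1), (2, 1), (0, 2)]

/-- parameters `(p, q)` of the equations of symmetric type -/
def PT : List (ℕ × ℕ) := [(0, 2), (1, 3), (2, 4), (1, 0), (2, 1), (3, 2), (4, 3), (4, 0), (5, 1),
  (0, 5), (1, 6), (7, 0)]

theorem H_chk : ∀ j < 8, ∀ i < 20,
    if i + (PH.getD j (0, 0)).2 < 20 then
      co j i * 2 ^ (eT.getD i 0 + eT.getD (i + (PH.getD j (0, 0)).2) 0)
        = 2 ^ 56 * ((bt (3 * i) (PH.getD j (0, 0)).1 : ℤ) - (-1) ^ (PH.getD j (0, 0)).2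
          * bt (3 * i) (8 - ((PH.getD j (0, 0)).1 + 3 * (PH.getD j (0, 0)).2))) ∧
      (co j i ≠ 0 → pa j i = i + (PH.getD j (0, 0)).2)
    else co j i = 0 := by decide +kernel

theorem T_chk : ∀ j < 12, ∀ i < 20,
    if i ≤ (59 + (PT.getD j (0, 0)).1 - (PT.getD j (0, 0)).2) / 3 ∧
      (59 + (PT.getD j (0, 0)).1 - (PT.getD j (0, 0)).2) / 3 - i < 20 then
      co (j + 8) i * 2 ^ (eT.getD i 0 + eT.getD ((59 + (PT.getD j (0, 0)).1
        - (PT.getD j (0, 0)).2) / 3 - i) 0)
        = 2 ^ 56 * ((-1) ^ (i + (PT.getD j (0, 0)).1 + (PT.getD j (0, 0)).2)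
          * bt (3 * i) (PT.getD j (0, 0)).1) ∧
      (co (j + 8) i ≠ 0 → pa (j + 8) i = (59 + (PT.getD j (0, 0)).1 - (PT.getD j (0, 0)).2) / 3 - i)
    else co (j + 8) i = 0 := by decide +kernel

/-- sums over the multiples of three -/
lemma sum_three (F : ℕ → ℂ) (h : ∀ j, j % 3 ≠ 0 → F j = 0) (n : ℕ) :
    ∑ j ∈ range (3 * n), F j = ∑ i ∈ range n, F (3 * i) := by
  induction n with
  | zero => simp
  | succ n ih =>
    rw [Finset.sum_range_succ, ← ih, show 3 * (n + 1) = 3 * n + 1 + 1 + 1 by ring,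
      Finset.sum_range_succ, Finset.sum_range_succ, Finset.sum_range_succ,
      h (3 * n + 1) (by omega), h (3 * n + 1 + 1) (by omega)]
    ring

lemma sum_bin (g : ℕ → ℂ) (h : ∀ j, j % 3 ≠ 0 → g j = 0) {p : ℕ} (hp : p ≤ 8) :
    ∑ k ∈ range 52, (Nat.choose 51 k : ℂ) * g (k + p) = ∑ i ∈ range 20, (bin (3 * i) p : ℂ) * g (3 * i) := by
  have h1 : ∑ k ∈ range 52, (Nat.choose 51 k : ℂ) * g (k + p)
      = ∑ j ∈ range (3 * 20), (bin j p : ℂ) * g j := by
    have h2 : ∑ k ∈ range 52, (Nat.choose 51 k : ℂ) * g (k + p)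
        = ∑ j ∈ Finset.Ico (0 + p) (52 + p), (bin j p : ℂ) * g j := by
      rw [← Finset.sum_Ico_add', Finset.range_eq_Ico]
      refine Finset.sum_congr rfl fun k _ => ?_
      simp [bin]
    rw [h2]
    refine Finset.sum_subset (fun j hj => ?_) (fun j hj hj' => ?_)
    · rw [Finset.mem_Ico] at hj
      rw [Finset.mem_range]
      omega
    · rw [Finset.mem_Ico] at hj'
      rw [Finset.mem_range] at hj
      unfold bin
      split_ifs with h3
      · rw [Nat.choose_eq_zero_of_lt (by omega)]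
        simp
      · simp
  rw [h1, sum_three (fun j => (bin j p : ℂ) * g j) fun j hj => by rw [h j hj, mul_zero]]

/-- amplitudes: `a j` is nonzero only for multiples of three below 60 -/
noncomputable def amp (x : V) (j : ℕ) : ℂ :=
  if h : j % 3 = 0 ∧ j < 60 then x ⟨j / 3, by omega⟩ / 2 ^ (eT.getD (j / 3) 0) else 0

lemma amp_three (x : V) (i : Fin 20) : amp x (3 * i) = x i / 2 ^ (eT.getD i 0) := by
  have h : (3 * (i : ℕ)) % 3 = 0 ∧ 3 * (i : ℕ) < 60 := by have := i.2; omega
  unfold amp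
  rw [dif_pos h]
  have h2 : 3 * (i : ℕ) / 3 = i := by omega
  simp only [h2]

lemma amp_zero {x : V} {j : ℕ} (h : j % 3 ≠ 0 ∨ 60 ≤ j) : amp x j = 0 := by
  unfold amp
  rw [dif_neg]
  omega

section
variable {x : V} (hx : ∀ e : Fin 36, Bf e x x = 0)
include hx

/-- the complex equation `j` -/
lemma ceq {j : ℕ} (hj : j < 20) :
    ∑ i : Fin 20, (co j i : ℂ) * (cjj (hh j) (x i) * x (pf j i)) = 0 := by
  have hre : ∀ e : Fin 36, ∑ i : Fin 20, (co (je e) i : ℝ) *
      prt (pe e) (cjj (hh (je e)) (x i) * x (pf (je e) i)) = 0 := by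
    intro e
    have := hx e
    simp only [Bf, LinearMap.mk₂_apply] at this
    exact (mul_eq_zero.1 this).resolve_left (by positivity)
  have hpr : ∀ (p : Bool) (f : Fin 20 → ℂ), prt p (∑ i : Fin 20, (co j i : ℂ) * f i)
      = ∑ i : Fin 20, (co j i : ℝ) * prt p (f i) := by
    intro p f
    cases p
    · simp [prt]
    · simp [prt]
  rcases lt_or_ge j 4 with h4 | h4
  · have h1 := hre ⟨j, by omega⟩
    have e1 : je j = j := by unfold je; rw [if_pos h4]
    have e2 : pe j = false := by unfold pe; rw [if_pos h4]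
    simp only [e1, e2] at h1
    rw [← hpr] at h1
    have h2 : (∑ i : Fin 20, (co j i : ℂ) * (cjj (hh j) (x i) * x (pf j i))).im = 0 := by
      have e3 : hh j = true := by unfold hh; simp; omega
      have h3 := hpr true (fun i => cjj (hh j) (x i) * x (pf j i))
      simp only [prt] at h3
      rw [h3]
      refine Finset.sum_eq_zero fun i _ => ?_
      have hk : ∀ j < 4, ∀ i < 20, co j i ≠ 0 → pa j i = i := by decide +kernel
      by_cases hc : co j i = 0
      · rw [hc]; simp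
      · have h5 : pf j i = i := by
          apply Fin.ext
          show pa j i % 20 = i
          rw [hk j h4 i i.2 hc]
          exact Nat.mod_eq_of_lt i.2
        rw [h5, e3]
        simp only [cjj]
        rw [mul_comm ((starRingEnd ℂ) (x i)), Complex.mul_conj, Complex.ofReal_im, mul_zero]
    exact Complex.ext h1 h2
  · have h1 := hre ⟨4 + 2 * (j - 4), by omega⟩
    have h2 := hre ⟨4 + 2 * (j - 4) + 1, by omega⟩
    have e1 : je (4 + 2 * (j - 4)) = j := by unfold je; rw [if_neg (by omega)]; omega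
    have e2 : je (4 + 2 * (j - 4) + 1) = j := by unfold je; rw [if_neg (by omega)]; omega
    have e3 : pe (4 + 2 * (j - 4)) = false := by
      unfold pe; rw [if_neg (by omega)]; simp
    have e4 : pe (4 + 2 * (j - 4) + 1) = true := by
      unfold pe; rw [if_neg (by omega)]; simp; omega
    simp only [e1, e2, e3, e4] at h1 h2
    rw [← hpr] at h1 h2
    exact Complex.ext h1 h2

lemma H_eq {j : ℕ} (hj : j < 8) :
    ∑ i ∈ range 20, ((bin (3 * i) (PH.getD j (0, 0)).1 : ℂ) - (-1) ^ (PH.getD j (0, 0)).2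
      * bin (3 * i) (8 - ((PH.getD j (0, 0)).1 + 3 * (PH.getD j (0, 0)).2)))
      * ((starRingEnd ℂ) (amp x (3 * i)) * amp x (3 * i + 3 * (PH.getD j (0, 0)).2)) = 0 := by
  have h1 := ceq hx (show j < 20 by omega)
  have e0 : hh j = true := by unfold hh; simp; omega
  rw [e0] at h1
  have h2 : ∀ i : Fin 20, (co j i : ℂ) * (cjj true (x i) * x (pf j i))
      = 2 ^ 56 * (((bin (3 * i) (PH.getD j (0, 0)).1 : ℂ) - (-1) ^ (PH.getD j (0, 0)).2
      * bin (3 * i) (8 - ((PH.getD j (0, 0)).1 + 3 * (PH.getD j (0, 0)).2)))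
      * ((starRingEnd ℂ) (amp x (3 * i)) * amp x (3 * i + 3 * (PH.getD j (0, 0)).2))) := by
    intro i
    have h3 := H_chk j hj i i.2
    rw [bin_eq (by have := i.2; omega), bin_eq (by have := i.2; omega)]
    split_ifs at h3 with h4
    · obtain ⟨h5, h6⟩ := h3
      have h7 : amp x (3 * i + 3 * (PH.getD j (0, 0)).2)
          = x ⟨i + (PH.getD j (0, 0)).2, h4⟩ / 2 ^ (eT.getD (i + (PH.getD j (0, 0)).2) 0) := by
        have := amp_three x ⟨i + (PH.getD j (0, 0)).2, h4⟩
        rw [← this]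
        congr 1
        simp only
        ring
      rw [h7, amp_three, map_div₀, map_pow]
      have h8 : (starRingEnd ℂ) 2 = 2 := Complex.conj_ofNat 2
      rw [h8]
      have h9 : ((co j i : ℤ) : ℂ) * 2 ^ (eT.getD i 0 + eT.getD (i + (PH.getD j (0, 0)).2) 0)
          = 2 ^ 56 * ((bt (3 * i) (PH.getD j (0, 0)).1 : ℂ) - (-1) ^ (PH.getD j (0, 0)).2
          * bt (3 * i) (8 - ((PH.getD j (0, 0)).1 + 3 * (PH.getD j (0, 0)).2))) := by
        exact_mod_cast congrArg (fun z : ℤ => (z : ℂ)) h5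
      rw [div_mul_div_comm, ← pow_add, ← mul_assoc (2 ^ 56 : ℂ), ← h9]
      by_cases hc : co j i = 0
      · rw [hc]; simp
      · have h10 : pf j i = ⟨i + (PH.getD j (0, 0)).2, h4⟩ := by
          apply Fin.ext
          show pa j i % 20 = i + (PH.getD j (0, 0)).2
          rw [h6 hc]
          exact Nat.mod_eq_of_lt h4
        rw [h10]
        simp only [cjj]
        field_simp
    · rw [h3, amp_zero (x := x) (j := 3 * i + 3 * (PH.getD j (0, 0)).2) (Or.inr (by omega))]
      simp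
  simp only [h2] at h1
  rw [← Finset.mul_sum] at h1
  rw [Finset.sum_range]
  exact (mul_eq_zero.1 h1).resolve_left (pow_ne_zero _ two_ne_zero)

lemma T_eq {j : ℕ} (hj : j < 12) :
    ∑ i ∈ range 20, ((-1) ^ (i + (PT.getD j (0, 0)).1 + (PT.getD j (0, 0)).2)
      * (bin (3 * i) (PT.getD j (0, 0)).1 : ℂ))
      * (amp x (3 * i) * amp x (59 + (PT.getD j (0, 0)).1 - (PT.getD j (0, 0)).2 - 3 * i)) = 0 := by
  have h1 := ceq hx (show j + 8 < 20 by omega)
  have e0 : hh (j + 8) = false := by unfold hh; simp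
  rw [e0] at h1
  have hdiv : ∀ j < 12, (59 + (PT.getD j (0, 0)).1 - (PT.getD j (0, 0)).2) % 3 = 0 ∧
      (PT.getD j (0, 0)).2 ≤ 8 ∧ (PT.getD j (0, 0)).1 ≤ 8 ∧
      ∀ i < 20, bt (3 * i) (PT.getD j (0, 0)).1 ≠ 0 →
        3 * i ≤ 59 + (PT.getD j (0, 0)).1 - (PT.getD j (0, 0)).2 := by decide +kernel
  obtain ⟨hd1, hd2, hd3, hd4⟩ := hdiv j hj
  have h2 : ∀ i : Fin 20, (co (j + 8) i : ℂ) * (cjj false (x i) * x (pf (j + 8) i))
      = 2 ^ 56 * (((-1) ^ (i + (PT.getD j (0, 0)).1 + (PT.getD j (0, 0)).2)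
      * (bin (3 * i) (PT.getD j (0, 0)).1 : ℂ))
      * (amp x (3 * i) * amp x (59 + (PT.getD j (0, 0)).1 - (PT.getD j (0, 0)).2 - 3 * i))) := by
    intro i
    have h3 := T_chk j hj i i.2
    rw [bin_eq (by have := i.2; omega)]
    generalize hm : 59 + (PT.getD j (0, 0)).1 - (PT.getD j (0, 0)).2 = m at *
    split_ifs at h3 with h4
    · obtain ⟨h5, h6⟩ := h3
      have h7 : amp x (m - 3 * i) = x ⟨m / 3 - i, h4.2⟩ / 2 ^ (eT.getD (m / 3 - i) 0) := by
        have := amp_three x ⟨m / 3 - i, h4.2⟩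
        rw [← this]
        congr 1
        simp only
        omega
      rw [h7, amp_three]
      have h9 : ((co (j + 8) i : ℤ) : ℂ) * 2 ^ (eT.getD i 0 + eT.getD (m / 3 - i) 0)
          = 2 ^ 56 * ((-1) ^ (i + (PT.getD j (0, 0)).1 + (PT.getD j (0, 0)).2)
          * bt (3 * i) (PT.getD j (0, 0)).1) := by
        exact_mod_cast congrArg (fun z : ℤ => (z : ℂ)) h5
      rw [div_mul_div_comm, ← pow_add, ← mul_assoc (2 ^ 56 : ℂ), ← h9]
      by_cases hc : co (j + 8) i = 0
      · rw [hc]; simp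
      · have h10 : pf (j + 8) i = ⟨m / 3 - i, h4.2⟩ := by
          apply Fin.ext
          show pa (j + 8) i % 20 = m / 3 - i
          rw [h6 hc]
          exact Nat.mod_eq_of_lt h4.2
        rw [h10]
        simp only [cjj]
        field_simp
    · rw [h3]
      by_cases h5 : bt (3 * i) (PT.getD j (0, 0)).1 = 0
      · rw [h5]; simp
      · have h6 := hd4 i i.2 h5
        rw [amp_zero (x := x) (j := m - 3 * i) (Or.inr (by omega))]
        simp
  simp only [h2] at h1
  rw [← Finset.mul_sum] at h1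
  rw [Finset.sum_range]
  exact (mul_eq_zero.1 h1).resolve_left (pow_ne_zero _ two_ne_zero)

end

end Pool.Agent.Q233.PI
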