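import Pool.Agent.Q233.PI.Newton
import Pool.Agent.Q233.PI.Data

/-!
# Existence of an exact solution of the twenty equations
-/

namespace Pool.Agent.Q233.PI

open Finset

set_option maxRecDepth 100000

/-- the complex number with real and imaginary parts `a.1`, `a.2` -/
noncomputable def zc (a : ℤ × ℤ) : ℂ := ⟨a.1, a.2⟩

/-- conjugate or not -/
noncomputable def cjj (h : Bool) (z : ℂ) : ℂ := match h with
  | true => (starRingEnd ℂ) z
  | false => z

/-- real or imaginary part -/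
noncomputable def prt (p : Bool) (z : ℂ) : ℝ := match p with
  | true => z.im
  | false => z.re

lemma tm_eq (h p : Bool) (a b : ℤ × ℤ) : (tm h p a b : ℝ) = prt p (cjj h (zc a) * zc b) := by
  cases h <;> cases p <;> simp [tm, prt, cjj, zc]
  ring

lemma prt_add (p : Bool) (z w : ℂ) : prt p (z + w) = prt p z + prt p w := by
  cases p <;> simp [prt]

lemma prt_smul (p : Bool) (r : ℝ) (z : ℂ) : prt p (r • z) = r * prt p z := by
  cases p <;> simp [prt]

lemma cjj_add (h : Bool) (z w : ℂ) : cjj h (z + w) = cjj h z + cjj h w := by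
  cases h <;> simp [cjj]

lemma cjj_smul (h : Bool) (r : ℝ) (z : ℂ) : cjj h (r • z) = r • cjj h z := by
  cases h <;> simp [cjj]

lemma abs_prt_le (p : Bool) (z : ℂ) : |prt p z| ≤ ‖z‖ := by
  cases p
  · exact Complex.abs_re_le_norm z
  · exact Complex.abs_im_le_norm z

lemma norm_cjj (h : Bool) (z : ℂ) : ‖cjj h z‖ = ‖z‖ := by
  cases h
  · rfl
  · exact RCLike.norm_conj z

/-- integer coefficient of equation `j` at `i` -/
def co (j i : ℕ) : ℤ := ((CP.getD j []).getD i (0, 0)).1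

/-- partner of `i` in equation `j` -/
def pa (j i : ℕ) : ℕ := ((CP.getD j []).getD i (0, 0)).2

/-- partner of `i` in equation `j` -/
def pf (j i : ℕ) : Fin 20 := ⟨pa j i % 20, Nat.mod_lt _ (by norm_num)⟩

lemma frm_eq (h p : Bool) : ∀ (cs : List (ℤ × ℕ)) (us w : List (ℤ × ℤ)),
    frm h p cs us w = ∑ i ∈ range cs.length,
      (cs.getD i (0, 0)).1 * tm h p (us.getD i (0, 0)) (w.getD (cs.getD i (0, 0)).2 (0, 0)) := by
  intro cs
  induction cs with
  | nil => intro us w; simp [frm]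
  | cons c cs ih =>
    intro us w
    rw [frm, ih, List.length_cons, Finset.sum_range_succ', add_comm]
    congr 1
    · refine Finset.sum_congr rfl fun i _ => ?_
      simp only [List.getD_cons_succ]
      cases us with
      | nil => simp
      | cons u us => simp
    · cases us with
      | nil => simp
      | cons u us => simp

lemma rowsum_eq (h p : Bool) (cs : List (ℤ × ℕ)) (e : ℕ) : ∀ (as : List (List (ℤ × ℤ))) (k : ℕ),
    rowsum h p cs e as k = ∑ l ∈ range as.length,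
      ((if e = k + l then 2 ^ 104 else 0) - (frm h p cs XL (as.getD l []) +
        frm h p cs (as.getD l []) XL)).natAbs := by
  intro as
  induction as with
  | nil => intro k; simp [rowsum]
  | cons a as ih =>
    intro k
    rw [rowsum, ih, List.length_cons, Finset.sum_range_succ', add_comm]
    congr 1
    refine Finset.sum_congr rfl fun l _ => ?_
    simp only [List.getD_cons_succ]
    congr 4
    rw [add_assoc, add_comm 1 l]

abbrev V := Fin 20 → ℂ

/-- the bilinear form of the real equation `e` -/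
noncomputable def Bf (e : Fin 36) : V →ₗ[ℝ] V →ₗ[ℝ] ℝ :=
  LinearMap.mk₂ ℝ (fun u v => (2 ^ 56 : ℝ)⁻¹ * ∑ i : Fin 20, (co (je e) i : ℝ) *
      prt (pe e) (cjj (hh (je e)) (u i) * v (pf (je e) i)))
    (fun u u' v => by
      rw [← mul_add, ← Finset.sum_add_distrib]
      congr 1
      refine Finset.sum_congr rfl fun i _ => ?_
      rw [Pi.add_apply, cjj_add, add_mul, prt_add, mul_add])
    (fun r u v => by
      rw [smul_eq_mul, mul_left_comm r]
      congr 1
      rw [Finset.mul_sum]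
      refine Finset.sum_congr rfl fun i _ => ?_
      rw [Pi.smul_apply, cjj_smul, smul_mul_assoc, prt_smul, mul_left_comm])
    (fun u v v' => by
      rw [← mul_add, ← Finset.sum_add_distrib]
      congr 1
      refine Finset.sum_congr rfl fun i _ => ?_
      rw [Pi.add_apply, mul_add, prt_add, mul_add])
    (fun r u v => by
      rw [smul_eq_mul, mul_left_comm r]
      congr 1
      rw [Finset.mul_sum]
      refine Finset.sum_congr rfl fun i _ => ?_
      rw [Pi.smul_apply, mul_smul_comm, prt_smul, mul_left_comm])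

/-- the vector given by a list -/
noncomputable def vz (l : List (ℤ × ℤ)) : V := fun i => zc (l.getD i (0, 0))

theorem len_chk : ∀ j < 20, (CP.getD j []).length = 20 := by decide +kernel

theorem pa_chk : ∀ j < 20, ∀ i < 20, pa j i < 20 := by decide +kernel

lemma je_lt (e : Fin 36) : je e < 20 := by
  have : ∀ e < 36, je e < 20 := by decide
  exact this e e.2

lemma Bf_vz (e : Fin 36) (l l' : List (ℤ × ℤ)) :
    Bf e (vz l) (vz l') = (2 ^ 56 : ℝ)⁻¹ * (frm (hh (je e)) (pe e) (CP.getD (je e) []) l l' : ℝ) := by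
  rw [frm_eq, len_chk _ (je_lt e)]
  simp only [Bf, LinearMap.mk₂_apply]
  rw [Finset.sum_range]
  push_cast
  congr 1
  refine Finset.sum_congr rfl fun i _ => ?_
  rw [tm_eq]
  have h1 : ((pf (je e) i : Fin 20) : ℕ) = pa (je e) i :=
    Nat.mod_eq_of_lt (pa_chk _ (je_lt e) _ i.2)
  unfold vz
  rw [h1]
  rfl

/-- the approximate solution -/
noncomputable def x0 : V := (2 ^ 40 : ℝ)⁻¹ • vz XL

/-- the columns of the approximate inverse -/
noncomputable def Ak (k : Fin 36) : V := (2 ^ 8 : ℝ)⁻¹ • vz (AT.getD k [])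

/-- the approximate inverse -/
noncomputable def Am : (Fin 36 → ℝ) →ₗ[ℝ] V := ∑ k, (LinearMap.proj k).smulRight (Ak k)

lemma Am_apply (y : Fin 36 → ℝ) : Am y = ∑ k, y k • Ak k := by
  simp [Am, LinearMap.sum_apply]

lemma chk_le (e : Fin 36) :
    (frm (hh (je e)) (pe e) (CP.getD (je e) []) XL XL).natAbs ≤ 2 ^ 100 ∧
    rowsum (hh (je e)) (pe e) (CP.getD (je e) []) e AT 0 ≤ 2 ^ 102 := by
  have h := chk_all e e.2
  unfold chk at h
  rw [Bool.and_eq_true, decide_eq_true_eq, decide_eq_true_eq] at h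
  exact h

lemma h0 (e : Fin 36) : |Bf e x0 x0| ≤ (2 ^ 36 : ℝ)⁻¹ := by
  have h1 : Bf e x0 x0 = (2 ^ 40 : ℝ)⁻¹ * ((2 ^ 40 : ℝ)⁻¹ * ((2 ^ 56 : ℝ)⁻¹ *
      (frm (hh (je e)) (pe e) (CP.getD (je e) []) XL XL : ℝ))) := by
    unfold x0
    rw [map_smul, map_smul, LinearMap.smul_apply, Bf_vz, smul_eq_mul, smul_eq_mul]
  rw [h1, abs_mul, abs_mul, abs_mul, abs_of_pos (by positivity : (0:ℝ) < (2 ^ 40)⁻¹),
    abs_of_pos (by positivity : (0:ℝ) < (2 ^ 56)⁻¹), ← Int.cast_abs, Int.abs_eq_natAbs]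
  have h2 : (((frm (hh (je e)) (pe e) (CP.getD (je e) []) XL XL).natAbs : ℤ) : ℝ) ≤ 2 ^ 100 := by
    exact_mod_cast (chk_le e).1
  refine (mul_le_mul_of_nonneg_left (mul_le_mul_of_nonneg_left
    (mul_le_mul_of_nonneg_left h2 (by positivity)) (by positivity)) (by positivity)).trans ?_
  norm_num

lemma hδ (e : Fin 36) (y : Fin 36 → ℝ) :
    |y e - (Bf e x0 (Am y) + Bf e (Am y) x0)| ≤ (1 / 4 : ℝ) * ‖y‖ := by
  have h1 : y e - (Bf e x0 (Am y) + Bf e (Am y) x0)
      = ∑ k, y k * ((if (e : ℕ) = k then 1 else 0) - (Bf e x0 (Ak k) + Bf e (Ak k) x0)) := by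
    rw [Am_apply]
    simp only [map_sum, map_smul, LinearMap.sum_apply, LinearMap.smul_apply, smul_eq_mul]
    rw [← Finset.sum_add_distrib]
    simp only [mul_sub, Finset.sum_sub_distrib, mul_add]
    congr 1
    simp only [mul_ite, mul_one, mul_zero, ← Fin.ext_iff]
    simp
  have h2 : ∀ k : Fin 36, (if (e : ℕ) = k then (1:ℝ) else 0) - (Bf e x0 (Ak k) + Bf e (Ak k) x0)
      = (2 ^ 104 : ℝ)⁻¹ * (((if (e : ℕ) = 0 + (k : ℕ) then 2 ^ 104 else 0)
        - (frm (hh (je e)) (pe e) (CP.getD (je e) []) XL (AT.getD k [])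
        + frm (hh (je e)) (pe e) (CP.getD (je e) []) (AT.getD k []) XL) : ℤ) : ℝ) := by
    intro k
    unfold x0 Ak
    simp only [map_smul, LinearMap.smul_apply, smul_eq_mul, Bf_vz, zero_add]
    push_cast
    split_ifs <;> ring
  have h3 : (∑ k : Fin 36, (((if (e : ℕ) = 0 + (k : ℕ) then 2 ^ 104 else 0)
        - (frm (hh (je e)) (pe e) (CP.getD (je e) []) XL (AT.getD k [])
        + frm (hh (je e)) (pe e) (CP.getD (je e) []) (AT.getD k []) XL) : ℤ).natAbs : ℝ)) ≤ 2 ^ 102 := by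
    have h4 := (chk_le e).2
    rw [rowsum_eq, show AT.length = 36 by decide +kernel, Finset.sum_range] at h4
    exact_mod_cast h4
  rw [h1]
  refine (Finset.abs_sum_le_sum_abs _ _).trans ?_
  calc ∑ k, |y k * ((if (e : ℕ) = k then (1:ℝ) else 0) - (Bf e x0 (Ak k) + Bf e (Ak k) x0))|
      ≤ ∑ k : Fin 36, ‖y‖ * ((2 ^ 104 : ℝ)⁻¹ * (((if (e : ℕ) = 0 + (k : ℕ) then 2 ^ 104 else 0)
        - (frm (hh (je e)) (pe e) (CP.getD (je e) []) XL (AT.getD k [])
        + frm (hh (je e)) (pe e) (CP.getD (je e) []) (AT.getD k []) XL) : ℤ).natAbs : ℝ)) := by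
        refine Finset.sum_le_sum fun k _ => ?_
        rw [abs_mul, h2, abs_mul, abs_of_pos (by positivity : (0:ℝ) < (2 ^ 104)⁻¹),
          ← Int.cast_abs, Int.abs_eq_natAbs, Int.cast_natCast]
        exact mul_le_mul_of_nonneg_right (norm_le_pi_norm y k) (by positivity)
    _ = ‖y‖ * ((2 ^ 104 : ℝ)⁻¹ * ∑ k : Fin 36, (((if (e : ℕ) = 0 + (k : ℕ) then 2 ^ 104 else 0)
        - (frm (hh (je e)) (pe e) (CP.getD (je e) []) XL (AT.getD k [])
        + frm (hh (je e)) (pe e) (CP.getD (je e) []) (AT.getD k []) XL) : ℤ).natAbs : ℝ)) := by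
        rw [← Finset.mul_sum, ← Finset.mul_sum]
    _ ≤ ‖y‖ * ((2 ^ 104 : ℝ)⁻¹ * 2 ^ 102) :=
        mul_le_mul_of_nonneg_left (mul_le_mul_of_nonneg_left h3 (by positivity)) (norm_nonneg _)
    _ = _ := by norm_num; ring

/-- sum of the absolute values of the coefficients -/
theorem co_chk : ∀ j < 20, ∑ i : Fin 20, (co j i).natAbs ≤ 6 * 2 ^ 56 := by decide +kernel

/-- row sums of the approximate inverse -/
theorem at_chk : ∀ i < 20, ∑ k : Fin 36, (((AT.getD k []).getD i (0, 0)).1.natAbs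
    + ((AT.getD k []).getD i (0, 0)).2.natAbs) ≤ 2 ^ 8 * 20500 := by decide +kernel

lemma norm_zc_le (a : ℤ × ℤ) : ‖zc a‖ ≤ ((a.1.natAbs + a.2.natAbs : ℕ) : ℝ) := by
  refine (Complex.norm_le_abs_re_add_abs_im _).trans (le_of_eq ?_)
  simp only [zc]
  push_cast
  rw [← Int.cast_abs, ← Int.cast_abs, Int.abs_eq_natAbs, Int.abs_eq_natAbs]
  simp

lemma hα (y : Fin 36 → ℝ) : ‖Am y‖ ≤ 20500 * ‖y‖ := by
  rw [pi_norm_le_iff_of_nonneg (by positivity)]
  intro i
  rw [Am_apply, Finset.sum_apply]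
  refine (norm_sum_le _ _).trans ?_
  have h1 : ∀ k : Fin 36, ‖(y k • Ak k) i‖ ≤ ‖y‖ * ((2 ^ 8 : ℝ)⁻¹ *
      ((((AT.getD k []).getD i (0, 0)).1.natAbs
        + ((AT.getD k []).getD i (0, 0)).2.natAbs : ℕ) : ℝ)) := by
    intro k
    rw [Pi.smul_apply, norm_smul]
    refine mul_le_mul (norm_le_pi_norm y k) ?_ (norm_nonneg _) (norm_nonneg _)
    unfold Ak
    rw [Pi.smul_apply, norm_smul, Real.norm_of_nonneg (by positivity)]
    exact mul_le_mul_of_nonneg_left (norm_zc_le _) (by positivity)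
  refine (Finset.sum_le_sum fun k _ => h1 k).trans ?_
  rw [← Finset.mul_sum, ← Finset.mul_sum]
  have h2 : (∑ k : Fin 36, ((((AT.getD k []).getD i (0, 0)).1.natAbs
        + ((AT.getD k []).getD i (0, 0)).2.natAbs : ℕ) : ℝ)) ≤ 2 ^ 8 * 20500 := by
    have := at_chk i i.2
    exact_mod_cast this
  calc _ ≤ ‖y‖ * ((2 ^ 8 : ℝ)⁻¹ * (2 ^ 8 * 20500)) :=
        mul_le_mul_of_nonneg_left (mul_le_mul_of_nonneg_left h2 (by positivity)) (norm_nonneg _)
    _ = _ := by norm_num; ring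

lemma hb (e : Fin 36) (u v : V) : |Bf e u v| ≤ 6 * ‖u‖ * ‖v‖ := by
  simp only [Bf, LinearMap.mk₂_apply]
  rw [abs_mul, abs_of_pos (by positivity : (0:ℝ) < (2 ^ 56)⁻¹)]
  have h1 : |∑ i : Fin 20, (co (je e) i : ℝ) * prt (pe e) (cjj (hh (je e)) (u i)
      * v (pf (je e) i))| ≤ ∑ i : Fin 20, ((co (je e) i).natAbs : ℝ) * (‖u‖ * ‖v‖) := by
    refine (Finset.abs_sum_le_sum_abs _ _).trans (Finset.sum_le_sum fun i _ => ?_)
    rw [abs_mul, ← Int.cast_abs, Int.abs_eq_natAbs, Int.cast_natCast]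
    refine mul_le_mul_of_nonneg_left ((abs_prt_le _ _).trans ?_) (by positivity)
    rw [norm_mul, norm_cjj]
    exact mul_le_mul (norm_le_pi_norm u i) (norm_le_pi_norm v _) (norm_nonneg _) (norm_nonneg _)
  have h2 : (∑ i : Fin 20, ((co (je e) i).natAbs : ℝ)) ≤ 6 * 2 ^ 56 := by
    have := co_chk _ (je_lt e)
    exact_mod_cast this
  refine (mul_le_mul_of_nonneg_left h1 (by positivity)).trans ?_
  rw [← Finset.sum_mul]
  calc _ ≤ (2 ^ 56 : ℝ)⁻¹ * (6 * 2 ^ 56 * (‖u‖ * ‖v‖)) :=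
        mul_le_mul_of_nonneg_left (mul_le_mul_of_nonneg_right h2 (by positivity)) (by positivity)
    _ = _ := by norm_num; ring

/-- Existence of the solution. -/
theorem exists_sol : ∃ x : V, x ≠ 0 ∧ ∀ e : Fin 36, Bf e x x = 0 := by
  obtain ⟨y, hy, hz⟩ := newton Bf x0 Am (b := 6) (α := 20500) (δ := 1 / 4) (η := (2 ^ 36 : ℝ)⁻¹)
    (ρ := (2 ^ 35 : ℝ)⁻¹) (by positivity) (by norm_num) (by norm_num) (by norm_num) hb hα h0 hδ
    (by norm_num) (by norm_num)
  refine ⟨x0 + Am y, fun h => ?_, hz⟩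
  have h1 : ‖x0‖ ≤ 20500 * (2 ^ 35 : ℝ)⁻¹ := by
    have h2 : x0 = -Am y := eq_neg_of_add_eq_zero_left h
    rw [h2, norm_neg]
    exact (hα y).trans (mul_le_mul_of_nonneg_left hy (by norm_num))
  have h3 : (2 ^ 40 : ℝ)⁻¹ * |((XL.getD 0 (0, 0)).1 : ℝ)| ≤ ‖x0‖ := by
    refine le_trans ?_ (norm_le_pi_norm x0 0)
    unfold x0 vz
    rw [Pi.smul_apply, norm_smul, Real.norm_of_nonneg (by positivity)]
    exact mul_le_mul_of_nonneg_left (Complex.abs_re_le_norm (zc (XL.getD 0 (0, 0))))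
      (by positivity)
  have h4 : (2 ^ 30 : ℝ) ≤ |((XL.getD 0 (0, 0)).1 : ℝ)| := by
    have : (2 ^ 30 : ℤ) ≤ |(XL.getD 0 (0, 0)).1| := by decide +kernel
    exact_mod_cast this
  have h5 := (mul_le_mul_of_nonneg_left h4 (by positivity : (0:ℝ) ≤ (2 ^ 40)⁻¹)).trans (h3.trans h1)
  norm_num at h5

end Pool.Agent.Q233.PI
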