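import Mathlib

/-!
# Knill-Laflamme conditions for permutation-invariant codes from reduced sums
-/

namespace Pool.Agent.Q233.PI

open Finset Matrix

/-- the number of ones of a computational basis label -/
def wt {ι : Type} [Fintype ι] (x : ι → Fin 2) : ℕ := ∑ i, (x i : ℕ)

/-- the four single-qubit Pauli matrices `I`, `X`, `Y`, `Z` -/
noncomputable def pauli : Fin 4 → Matrix (Fin 2) (Fin 2) ℂ :=
  ![1, !![0, 1; 1, 0], !![0, -Complex.I; Complex.I, 0], !![1, 0; 0, -1]]

/-- the tensor product of `n` single-qubit Pauli matrices -/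
noncomputable def pauliString {n : ℕ} (s : Fin n → Fin 4) :
    Matrix (Fin n → Fin 2) (Fin n → Fin 2) ℂ :=
  fun x y => ∏ i, pauli (s i) (x i) (y i)

/-- the weight of a Pauli string: the number of tensor factors different from the identity -/
def weight {n : ℕ} (s : Fin n → Fin 4) : ℕ := (univ.filter fun i => s i ≠ 0).card

/-- tensor products of arbitrary single-qubit matrices -/
def tens {ι : Type} [Fintype ι] (M : ι → Matrix (Fin 2) (Fin 2) ℂ) :
    Matrix (ι → Fin 2) (ι → Fin 2) ℂ := fun x y => ∏ i, M i (x i) (y i)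

lemma tens_mul {ι : Type} [Fintype ι] [DecidableEq ι] (M N : ι → Matrix (Fin 2) (Fin 2) ℂ) :
    tens M * tens N = tens fun i => M i * N i := by
  ext x y
  simp only [tens, Matrix.mul_apply]
  rw [Finset.prod_univ_sum, Fintype.piFinset_univ]
  exact Finset.sum_congr rfl fun z _ => Finset.prod_mul_distrib.symm

lemma tens_conjTranspose {ι : Type} [Fintype ι] (M : ι → Matrix (Fin 2) (Fin 2) ℂ) :
    (tens M)ᴴ = tens fun i => (M i)ᴴ := by
  ext x y
  simp only [tens, Matrix.conjTranspose_apply, star_prod]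

lemma pauliString_eq {n : ℕ} (s : Fin n → Fin 4) : pauliString s = tens fun i => pauli (s i) := rfl

/-- sums over labels of a function of the number of ones -/
lemma sum_wt {ι : Type} [Fintype ι] [DecidableEq ι] (f : ℕ → ℂ) :
    ∑ z : ι → Fin 2, f (wt z) = ∑ k ∈ range (Fintype.card ι + 1), ((Fintype.card ι).choose k : ℂ) * f k := by
  have h1 : ∑ z : ι → Fin 2, f (wt z) = ∑ s ∈ (univ : Finset ι).powerset, f s.card := by
    refine Finset.sum_nbij' (fun z => univ.filter fun i => z i = 1)
      (fun s i => if i ∈ s then 1 else 0) (fun _ _ => by simp) (fun _ _ => by simp) ?_ ?_ ?_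
    · intro z _
      funext i
      by_cases h : z i = 1
      · simp [h]
      · have h0 : z i = 0 := by have := Fin.exists_fin_two.1 ⟨z i, rfl⟩; omega
        simp [h0]
    · intro s _
      ext i
      simp
    · intro z _
      congr 1
      unfold wt
      rw [Finset.card_filter]
      refine Finset.sum_congr rfl fun i _ => ?_
      by_cases h : z i = 1
      · simp [h]
      · have h0 : z i = 0 := by have := Fin.exists_fin_two.1 ⟨z i, rfl⟩; omega
        simp [h0]
  rw [h1, Finset.sum_powerset_apply_card]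
  simp [nsmul_eq_mul]

/-- the matrix element of a tensor operator acting on the sites of `A` only -/
lemma elem {n : ℕ} (A : Finset (Fin n)) (M : Fin n → Matrix (Fin 2) (Fin 2) ℂ)
    (hM : ∀ i, i ∉ A → M i = 1) (a b : ℕ → ℂ) :
    (star fun x : Fin n → Fin 2 => a (wt x)) ⬝ᵥ (tens M).mulVec (fun x => b (wt x))
      = ∑ u : {i // i ∈ A} → Fin 2, ∑ v : {i // i ∈ A} → Fin 2,
          (∏ i, M i.1 (u i) (v i)) *
          ∑ k ∈ range (n - A.card + 1), ((n - A.card).choose k : ℂ) *
            ((starRingEnd ℂ) (a (k + wt u)) * b (k + wt v)) := by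
  set e := Equiv.piEquivPiSubtypeProd (fun i => i ∈ A) (fun _ : Fin n => Fin 2) with he
  have hcard : Fintype.card {i : Fin n // ¬ i ∈ A} = n - A.card := by
    rw [Fintype.card_subtype_compl, Fintype.card_coe, Fintype.card_fin]
  have hsum : ∀ f : (Fin n → Fin 2) → ℂ, ∑ x, f x = ∑ u : {i // i ∈ A} → Fin 2,
      ∑ z : {i : Fin n // ¬ i ∈ A} → Fin 2, f (e.symm (u, z)) := by
    intro f
    rw [← Fintype.sum_prod_type']
    exact (Equiv.sum_comp e.symm f).symm
  have hwt : ∀ u z, wt (e.symm (u, z)) = wt z + wt u := by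
    intro u z
    unfold wt
    rw [← Fintype.sum_subtype_add_sum_subtype (fun i => i ∈ A), add_comm]
    congr 1
    · refine Finset.sum_congr rfl fun i _ => ?_
      rw [he, Equiv.piEquivPiSubtypeProd_symm_apply]
      simp only [dif_neg i.2]
    · refine Finset.sum_congr (Finset.ext fun _ => by simp) fun i _ => ?_
      rw [he, Equiv.piEquivPiSubtypeProd_symm_apply]
      simp only [dif_pos i.2]
  have hprod : ∀ u z v z', tens M (e.symm (u, z)) (e.symm (v, z'))
      = (∏ i : {i // i ∈ A}, M i.1 (u i) (v i)) * if z = z' then 1 else 0 := by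
    intro u z v z'
    unfold tens
    rw [← Fintype.prod_subtype_mul_prod_subtype (fun i => i ∈ A)]
    congr 1
    · refine Finset.prod_congr (Finset.ext fun _ => by simp) fun i _ => ?_
      rw [he, Equiv.piEquivPiSubtypeProd_symm_apply, Equiv.piEquivPiSubtypeProd_symm_apply]
      simp only [dif_pos i.2]
    · have h1 : ∀ i : {i : Fin n // ¬ i ∈ A}, M i.1 (e.symm (u, z) i.1) (e.symm (v, z') i.1)
          = if z i = z' i then 1 else 0 := by
        intro i
        rw [hM i.1 i.2, he, Equiv.piEquivPiSubtypeProd_symm_apply,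
          Equiv.piEquivPiSubtypeProd_symm_apply]
        simp only [dif_neg i.2, Matrix.one_apply]
      simp only [h1]
      rw [Finset.prod_ite_zero]
      simp [funext_iff]
  simp only [dotProduct, Matrix.mulVec, Pi.star_apply]
  rw [hsum]
  have h2 : ∀ u z, (∑ y, tens M (e.symm (u, z)) y * b (wt y))
      = ∑ v : {i // i ∈ A} → Fin 2, (∏ i : {i // i ∈ A}, M i.1 (u i) (v i)) * b (wt z + wt v) := by
    intro u z
    rw [hsum]
    refine Finset.sum_congr rfl fun v _ => ?_
    simp only [hprod, hwt]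
    rw [Finset.sum_eq_single z]
    · simp
    · intro z' _ hz
      rw [if_neg (Ne.symm hz)]
      ring
    · intro h
      exact absurd (Finset.mem_univ _) h
  simp only [h2, hwt]
  refine Finset.sum_congr rfl fun u _ => ?_
  simp only [Finset.mul_sum]
  rw [Finset.sum_comm]
  refine Finset.sum_congr rfl fun v _ => ?_
  have h3 := sum_wt (ι := {i : Fin n // ¬ i ∈ A})
    (fun k => (starRingEnd ℂ) (a (k + wt u)) * b (k + wt v))
  rw [hcard] at h3
  rw [← Finset.mul_sum, ← h3, Finset.mul_sum]
  refine Finset.sum_congr rfl fun z _ => ?_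
  simp only [RCLike.star_def]
  ring

lemma wt_le {ι : Type} [Fintype ι] (x : ι → Fin 2) : wt x ≤ Fintype.card ι := by
  unfold wt
  refine (Finset.sum_le_sum fun i _ => (show (x i : ℕ) ≤ 1 by omega)).trans ?_
  simp

/-- Knill-Laflamme conditions from the reduced sums. -/
theorem KL_of {n t : ℕ} (hn : 2 * t ≤ n) (a : Fin 2 → ℕ → ℂ)
    (h : ∀ p ≤ 2 * t, ∀ q ≤ 2 * t,
      (∑ k ∈ range (n - 2 * t + 1), ((n - 2 * t).choose k : ℂ) *
        ((starRingEnd ℂ) (a 0 (k + p)) * a 1 (k + q))) = 0 ∧
      (∑ k ∈ range (n - 2 * t + 1), ((n - 2 * t).choose k : ℂ) *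
        ((starRingEnd ℂ) (a 0 (k + p)) * a 0 (k + q)))
      = ∑ k ∈ range (n - 2 * t + 1), ((n - 2 * t).choose k : ℂ) *
        ((starRingEnd ℂ) (a 1 (k + p)) * a 1 (k + q)))
    (E F : Fin n → Fin 4) (hE : weight E ≤ t) (hF : weight F ≤ t) :
    ∃ l : ℂ, ∀ i k : Fin 2, (star fun x : Fin n → Fin 2 => a i (wt x)) ⬝ᵥ
      ((pauliString E)ᴴ * pauliString F).mulVec (fun x => a k (wt x)) = if i = k then l else 0 := by
  set M : Fin n → Matrix (Fin 2) (Fin 2) ℂ := fun i => (pauli (E i))ᴴ * pauli (F i) with hMd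
  have hmat : (pauliString E)ᴴ * pauliString F = tens M := by
    rw [pauliString_eq, pauliString_eq, tens_conjTranspose, tens_mul]
  set A0 : Finset (Fin n) := (univ.filter fun i => E i ≠ 0) ∪ (univ.filter fun i => F i ≠ 0)
  have hA0 : A0.card ≤ 2 * t := by
    refine (Finset.card_union_le _ _).trans ?_
    unfold weight at hE hF
    omega
  obtain ⟨A, hA1, hA2⟩ := Finset.exists_superset_card_eq hA0 (by simpa using hn)
  have hM : ∀ i, i ∉ A → M i = 1 := by
    intro i hi
    have h1 : i ∉ A0 := fun h => hi (hA1 h)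
    simp only [A0, Finset.mem_union, Finset.mem_filter, Finset.mem_univ, true_and, not_or,
      not_not] at h1
    simp [hMd, h1.1, h1.2, pauli]
  have hel : ∀ i k : Fin 2, (star fun x : Fin n → Fin 2 => a i (wt x)) ⬝ᵥ
      (tens M).mulVec (fun x => a k (wt x))
      = ∑ u : {i // i ∈ A} → Fin 2, ∑ v : {i // i ∈ A} → Fin 2,
          (∏ i, M i.1 (u i) (v i)) *
          ∑ l ∈ range (n - 2 * t + 1), ((n - 2 * t).choose l : ℂ) *
            ((starRingEnd ℂ) (a i (l + wt u)) * a k (l + wt v)) := by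
    intro i k
    rw [elem A M hM (a i) (a k), hA2]
  have hu : ∀ u : {i // i ∈ A} → Fin 2, wt u ≤ 2 * t := by
    intro u
    refine (wt_le u).trans ?_
    rw [Fintype.card_coe, hA2]
  rw [hmat]
  refine ⟨(star fun x : Fin n → Fin 2 => a 0 (wt x)) ⬝ᵥ (tens M).mulVec (fun x => a 0 (wt x)), ?_⟩
  have h01 : (star fun x : Fin n → Fin 2 => a 0 (wt x)) ⬝ᵥ
      (tens M).mulVec (fun x => a 1 (wt x)) = 0 := by
    rw [hel]
    refine Finset.sum_eq_zero fun u _ => Finset.sum_eq_zero fun v _ => ?_
    rw [(h _ (hu u) _ (hu v)).1, mul_zero]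
  have h10 : (star fun x : Fin n → Fin 2 => a 1 (wt x)) ⬝ᵥ
      (tens M).mulVec (fun x => a 0 (wt x)) = 0 := by
    rw [hel]
    refine Finset.sum_eq_zero fun u _ => Finset.sum_eq_zero fun v _ => ?_
    have h1 := congrArg (starRingEnd ℂ) (h _ (hu v) _ (hu u)).1
    rw [map_sum, map_zero] at h1
    have h2 : (∑ l ∈ range (n - 2 * t + 1), ((n - 2 * t).choose l : ℂ) *
            ((starRingEnd ℂ) (a 1 (l + wt u)) * a 0 (l + wt v))) = 0 := by
      rw [← h1]
      refine Finset.sum_congr rfl fun l _ => ?_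
      rw [map_mul, map_mul, Complex.conj_conj, Complex.conj_natCast]
      ring
    rw [h2, mul_zero]
  have h11 : (star fun x : Fin n → Fin 2 => a 1 (wt x)) ⬝ᵥ
      (tens M).mulVec (fun x => a 1 (wt x)) = (star fun x : Fin n → Fin 2 => a 0 (wt x)) ⬝ᵥ
      (tens M).mulVec (fun x => a 0 (wt x)) := by
    rw [hel, hel]
    refine Finset.sum_congr rfl fun u _ => Finset.sum_congr rfl fun v _ => ?_
    rw [(h _ (hu u) _ (hu v)).2]
  intro i k
  fin_cases i <;> fin_cases k
  · simp
  · simpa using h01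
  · simpa using h10
  · simpa using h11

end Pool.Agent.Q233.PI
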