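import Mathlib

/-!
# A Newton-Kantorovich type lemma for systems of quadratic forms
-/

namespace Pool.Agent.Q233.PI

open Function Metric

/-- Let `B e`, `e < m`, be real bilinear forms on a normed space `V`, `x0` an approximate common
zero of the quadratic forms `B e x x`, and `A` an approximate right inverse of the derivative at
`x0`.  Then there is an exact common zero `x0 + A y` with `y` small. -/
theorem newton {m : ℕ} {V : Type} [SeminormedAddCommGroup V] [NormedSpace ℝ V]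
    (B : Fin m → V →ₗ[ℝ] V →ₗ[ℝ] ℝ) (x0 : V) (A : (Fin m → ℝ) →ₗ[ℝ] V) {b α δ η ρ : ℝ}
    (hρ0 : 0 ≤ ρ) (hb0 : 0 ≤ b) (hα0 : 0 ≤ α) (hδ0 : 0 ≤ δ)
    (hb : ∀ e u v, |B e u v| ≤ b * ‖u‖ * ‖v‖) (hα : ∀ y, ‖A y‖ ≤ α * ‖y‖)
    (h0 : ∀ e, |B e x0 x0| ≤ η)
    (hδ : ∀ e (y : Fin m → ℝ), |y e - (B e x0 (A y) + B e (A y) x0)| ≤ δ * ‖y‖)
    (hρ : η + δ * ρ + b * α ^ 2 * ρ ^ 2 ≤ ρ) (hc : δ + 2 * b * α ^ 2 * ρ < 1) :
    ∃ y : Fin m → ℝ, ‖y‖ ≤ ρ ∧ ∀ e, B e (x0 + A y) (x0 + A y) = 0 := by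
  set T : (Fin m → ℝ) → (Fin m → ℝ) := fun y e => y e - B e (x0 + A y) (x0 + A y) with hT
  have key : ∀ y y' : Fin m → ℝ, ∀ e, T y e - T y' e
      = ((y - y') e - (B e x0 (A (y - y')) + B e (A (y - y')) x0))
        - (B e (A y) (A (y - y')) + B e (A (y - y')) (A y')) := by
    intro y y' e
    simp only [hT, map_sub, map_add, LinearMap.add_apply, LinearMap.sub_apply, Pi.sub_apply]
    ring
  have hbb : ∀ e u v, |B e (A u) (A v)| ≤ b * α ^ 2 * (‖u‖ * ‖v‖) := by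
    intro e u v
    refine (hb e _ _).trans ?_
    calc b * ‖A u‖ * ‖A v‖ ≤ b * (α * ‖u‖) * (α * ‖v‖) := by
          refine mul_le_mul (mul_le_mul_of_nonneg_left (hα u) hb0) (hα v) (norm_nonneg _) ?_
          positivity
      _ = _ := by ring
  set K : ℝ := δ + 2 * b * α ^ 2 * ρ with hK
  have hK0 : 0 ≤ K := by positivity
  have lip : ∀ y y' : Fin m → ℝ, ‖y‖ ≤ ρ → ‖y'‖ ≤ ρ → ‖T y - T y'‖ ≤ K * ‖y - y'‖ := by
    intro y y' hy hy'
    rw [pi_norm_le_iff_of_nonneg (by positivity)]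
    intro e
    rw [Pi.sub_apply, key, Real.norm_eq_abs]
    refine (abs_sub _ _).trans ?_
    refine (add_le_add (hδ e _) (abs_add_le _ _)).trans ?_
    refine (add_le_add le_rfl (add_le_add (hbb e _ _) (hbb e _ _))).trans ?_
    have h1 : ‖y‖ * ‖y - y'‖ ≤ ρ * ‖y - y'‖ := mul_le_mul_of_nonneg_right hy (norm_nonneg _)
    have h2 : ‖y - y'‖ * ‖y'‖ ≤ ‖y - y'‖ * ρ := mul_le_mul_of_nonneg_left hy' (norm_nonneg _)
    have h3 : 0 ≤ b * α ^ 2 := by positivity
    nlinarith [mul_le_mul_of_nonneg_left h1 h3, mul_le_mul_of_nonneg_left h2 h3]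
  have maps : Set.MapsTo T (closedBall 0 ρ) (closedBall 0 ρ) := by
    intro y hy
    rw [mem_closedBall, dist_zero_right] at hy ⊢
    rw [pi_norm_le_iff_of_nonneg hρ0]
    intro e
    have e1 : T y e = (y e - (B e x0 (A y) + B e (A y) x0)) - B e x0 x0 - B e (A y) (A y) := by
      simp only [hT, map_add, LinearMap.add_apply]
      ring
    rw [e1, Real.norm_eq_abs]
    refine (abs_sub _ _).trans ((add_le_add (abs_sub _ _) (hbb e _ _)).trans ?_)
    have h1 := hδ e y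
    have h2 := h0 e
    have h3 : ‖y‖ * ‖y‖ ≤ ρ * ρ := mul_le_mul hy hy (norm_nonneg _) hρ0
    have h4 : 0 ≤ b * α ^ 2 := by positivity
    nlinarith [mul_le_mul_of_nonneg_left h3 h4, mul_le_mul_of_nonneg_left hy hδ0]
  have contr : ContractingWith ⟨K, hK0⟩ (maps.restrict T (closedBall 0 ρ) (closedBall 0 ρ)) := by
    refine ⟨by exact_mod_cast hc, LipschitzWith.of_dist_le_mul fun y y' => ?_⟩
    rw [Subtype.dist_eq, Subtype.dist_eq, dist_eq_norm, dist_eq_norm]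
    have h1 := y.2
    have h2 := y'.2
    rw [mem_closedBall, dist_zero_right] at h1 h2
    exact lip _ _ h1 h2
  obtain ⟨y, hy, hfix, -⟩ := contr.exists_fixedPoint' (isClosed_closedBall.isComplete) maps
    (x := 0) (by rw [mem_closedBall, dist_self]; exact hρ0) (edist_ne_top _ _)
  refine ⟨y, by simpa [mem_closedBall, dist_zero_right] using hy, fun e => ?_⟩
  have h1 := congrFun hfix e
  simp only [hT] at h1
  linarith

end Pool.Agent.Q233.PI
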