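import Pool.Agent.Q233.PI.Amp

/-!
# All the reduced Knill-Laflamme equations
-/

namespace Pool.Agent.Q233.PI

open Finset

set_option maxRecDepth 100000

/-- the reduced sums -/
noncomputable def S (a b : ℕ → ℂ) (p q : ℕ) : ℂ :=
  ∑ k ∈ range 52, (Nat.choose 51 k : ℂ) * ((starRingEnd ℂ) (a (k + p)) * b (k + q))

/-- amplitudes of the second codeword -/
noncomputable def amp' (x : V) (j : ℕ) : ℂ := (-1) ^ j * (starRingEnd ℂ) (amp x (59 - j))

/-- the bilinear sums -/
noncomputable def T (a : ℕ → ℂ) (p q : ℕ) : ℂ :=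
  ∑ k ∈ range 52, (Nat.choose 51 k : ℂ) * ((-1) ^ (k + q) * (a (k + p) * a (59 - (k + q))))

lemma choose_refl {k : ℕ} (hk : k < 52) : Nat.choose 51 (51 - k) = Nat.choose 51 k :=
  Nat.choose_symm (by omega)

lemma sgn {m n : ℕ} (h : m % 2 = n % 2) : (-1 : ℂ) ^ m = (-1) ^ n := by
  rcases Nat.even_or_odd n with h1 | h1
  · rw [h1.neg_one_pow, Even.neg_one_pow]
    rw [Nat.even_iff] at h1 ⊢
    omega
  · rw [h1.neg_one_pow, Odd.neg_one_pow]
    rw [Nat.odd_iff] at h1 ⊢
    omega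

lemma sgn' {m n : ℕ} (h : m % 2 ≠ n % 2) : (-1 : ℂ) ^ m = -(-1) ^ n := by
  rw [sgn (show m % 2 = (n + 1) % 2 by omega), pow_succ]
  ring

lemma S_conj (a b : ℕ → ℂ) (p q : ℕ) : (starRingEnd ℂ) (S a b p q) = S b a q p := by
  unfold S
  rw [map_sum]
  refine Finset.sum_congr rfl fun k _ => ?_
  rw [map_mul, map_mul, Complex.conj_conj, Complex.conj_natCast]
  ring

variable {x : V}

lemma S_amp' {p q : ℕ} (hp : p ≤ 8) (hq : q ≤ 8) :
    S (amp' x) (amp' x) p q = (-1) ^ (p + q) * S (amp x) (amp x) (8 - q) (8 - p) := by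
  unfold S
  rw [← Finset.sum_range_reflect, Finset.mul_sum]
  refine Finset.sum_congr rfl fun k hk => ?_
  rw [Finset.mem_range] at hk
  rw [show 52 - 1 - k = 51 - k by omega, choose_refl hk]
  unfold amp'
  rw [show 59 - (51 - k + p) = k + (8 - p) by omega, show 59 - (51 - k + q) = k + (8 - q) by omega,
    map_mul, Complex.conj_conj, map_pow, map_neg, map_one]
  have h1 : (-1 : ℂ) ^ (51 - k + p) * (-1) ^ (51 - k + q) = (-1) ^ (p + q) := by
    rw [← pow_add, show 51 - k + p + (51 - k + q) = 2 * (51 - k) + (p + q) by ring, pow_add, pow_mul]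
    simp
  rw [← h1]
  ring

lemma T_symm {p q : ℕ} (hp : p ≤ 8) (hq : q ≤ 8) :
    T (amp x) p q = -((-1) ^ (p + q) * T (amp x) (8 - q) (8 - p)) := by
  unfold T
  rw [← Finset.sum_range_reflect, Finset.mul_sum, ← Finset.sum_neg_distrib]
  refine Finset.sum_congr rfl fun k hk => ?_
  rw [Finset.mem_range] at hk
  rw [show 52 - 1 - k = 51 - k by omega, choose_refl hk,
    show 59 - (51 - k + q) = k + (8 - q) by omega, show 59 - (k + (8 - p)) = 51 - k + p by omega]
  have h1 : (-1 : ℂ) ^ (51 - k + q) = -((-1) ^ (p + q) * (-1) ^ (k + (8 - p))) := by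
    rw [← pow_add]
    exact sgn' (by omega)
  rw [h1]
  ring

lemma S_amp_amp' (p q : ℕ) : S (amp x) (amp' x) p q = (starRingEnd ℂ) (T (amp x) p q) := by
  unfold S T amp'
  rw [map_sum]
  refine Finset.sum_congr rfl fun k _ => ?_
  rw [map_mul, map_mul, map_mul, map_pow, map_neg, map_one]
  congr 1
  · exact (Complex.conj_natCast _).symm
  · ring

lemma S_zero {p q : ℕ} (h : p % 3 ≠ q % 3) : S (amp x) (amp x) p q = 0 := by
  unfold S
  refine Finset.sum_eq_zero fun k _ => ?_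
  by_cases h1 : (k + p) % 3 = 0
  · rw [amp_zero (j := k + q) (Or.inl (by omega)), mul_zero, mul_zero]
  · rw [amp_zero (j := k + p) (Or.inl h1), map_zero, zero_mul, mul_zero]

lemma T_zero {p q : ℕ} (hq : q ≤ 8) (h : (p + 2) % 3 ≠ q % 3) : T (amp x) p q = 0 := by
  unfold T
  refine Finset.sum_eq_zero fun k hk => ?_
  rw [Finset.mem_range] at hk
  by_cases h1 : (k + p) % 3 = 0
  · rw [amp_zero (j := 59 - (k + q)) (Or.inl (by omega))]
    simp
  · rw [amp_zero (j := k + p) (Or.inl h1)]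
    simp

/-- the hermitian relation -/
def R (x : V) (p q : ℕ) : Prop :=
  S (amp x) (amp x) p q = (-1) ^ (p + q) * S (amp x) (amp x) (8 - q) (8 - p)

lemma R_symm {p q : ℕ} (hp : p ≤ 8) (hq : q ≤ 8) (h : R x p q) : R x (8 - q) (8 - p) := by
  unfold R at *
  rw [show 8 - (8 - p) = p by omega, show 8 - (8 - q) = q by omega, h, ← mul_assoc, ← pow_add,
    Even.neg_one_pow, one_mul]
  rw [Nat.even_iff]
  omega

lemma R_conj {p q : ℕ} (h : R x p q) : R x q p := by
  unfold R at *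
  rw [← S_conj, h, map_mul, S_conj, map_pow, map_neg, map_one, add_comm]

lemma R_triv {p q : ℕ} (hp : p ≤ 8) (hq : q ≤ 8) (h : p % 3 ≠ q % 3) : R x p q := by
  unfold R
  rw [S_zero h, S_zero (by omega), mul_zero]

lemma R_mid {p q : ℕ} (h : p + q = 8) : R x p q := by
  unfold R
  rw [show 8 - q = p by omega, show 8 - p = q by omega, h]
  norm_num

variable (hx : ∀ e : Fin 36, Bf e x x = 0)
include hx

lemma R_base {j : ℕ} (hj : j < 8) :
    R x (PH.getD j (0, 0)).1 ((PH.getD j (0, 0)).1 + 3 * (PH.getD j (0, 0)).2) := by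
  have hd : ∀ j < 8, (PH.getD j (0, 0)).1 + 3 * (PH.getD j (0, 0)).2 ≤ 8 ∧
    (PH.getD j (0, 0)).1 ≤ 8 := by decide +kernel
  obtain ⟨h1, h2⟩ := hd j hj
  have h3 := H_eq hx hj
  generalize (PH.getD j (0, 0)).1 = p at *
  generalize (PH.getD j (0, 0)).2 = d at *
  have hg : ∀ j, j % 3 ≠ 0 → (starRingEnd ℂ) (amp x j) * amp x (j + 3 * d) = 0 := by
    intro j hj
    rw [amp_zero (j := j) (Or.inl hj), map_zero, zero_mul]
  have e1 : S (amp x) (amp x) p (p + 3 * d)
      = ∑ i ∈ range 20, (bin (3 * i) p : ℂ) * ((starRingEnd ℂ) (amp x (3 * i)) *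
        amp x (3 * i + 3 * d)) := by
    rw [← sum_bin (fun j => (starRingEnd ℂ) (amp x j) * amp x (j + 3 * d)) hg h2]
    unfold S
    simp only [add_assoc]
  have e2 : S (amp x) (amp x) (8 - (p + 3 * d)) (8 - p)
      = ∑ i ∈ range 20, (bin (3 * i) (8 - (p + 3 * d)) : ℂ) * ((starRingEnd ℂ) (amp x (3 * i)) *
        amp x (3 * i + 3 * d)) := by
    rw [← sum_bin (fun j => (starRingEnd ℂ) (amp x j) * amp x (j + 3 * d)) hg (by omega)]
    unfold S
    refine Finset.sum_congr rfl fun k _ => ?_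
    rw [show k + (8 - (p + 3 * d)) + 3 * d = k + (8 - p) by omega]
  unfold R
  have h4 : (-1 : ℂ) ^ (p + (p + 3 * d)) = (-1) ^ d := sgn (by omega)
  rw [e1, e2, h4, Finset.mul_sum, ← sub_eq_zero, ← Finset.sum_sub_distrib, ← h3]
  refine Finset.sum_congr rfl fun i _ => ?_
  ring

lemma T_base {j : ℕ} (hj : j < 12) : T (amp x) (PT.getD j (0, 0)).1 (PT.getD j (0, 0)).2 = 0 := by
  have hd : ∀ j < 12, (PT.getD j (0, 0)).2 ≤ 8 ∧ (PT.getD j (0, 0)).1 ≤ 8 := by decide +kernel
  obtain ⟨h1, h2⟩ := hd j hj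
  have h3 := T_eq hx hj
  generalize (PT.getD j (0, 0)).1 = p at *
  generalize (PT.getD j (0, 0)).2 = q at *
  have e1 : T (amp x) p q = ∑ i ∈ range 20, (bin (3 * i) p : ℂ) * ((-1) ^ (3 * i + p + q) *
      (amp x (3 * i) * amp x (59 + p - q - 3 * i))) := by
    rw [← sum_bin (fun j => (-1) ^ (j + p + q) * (amp x j * amp x (59 + p - q - j)))
      (fun j hj => by rw [amp_zero (j := j) (Or.inl hj), zero_mul, mul_zero]) h2]
    unfold T
    refine Finset.sum_congr rfl fun k hk => ?_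
    rw [Finset.mem_range] at hk
    have h4 : (-1 : ℂ) ^ (k + q) = (-1) ^ (k + p + p + q) := sgn (by omega)
    rw [h4, show 59 - (k + q) = 59 + p - q - (k + p) by omega]
  rw [e1, ← h3]
  refine Finset.sum_congr rfl fun i _ => ?_
  have h4 : (-1 : ℂ) ^ (3 * i + p + q) = (-1) ^ (i + p + q) := sgn (by omega)
  rw [h4]
  ring

attribute [local irreducible] R T

theorem R_all {p q : ℕ} (hp : p ≤ 8) (hq : q ≤ 8) : R x p q := by
  by_cases h : p % 3 = q % 3
  · have hs : ∀ {p q p' q' : ℕ}, R x p q → p + q' = 8 → q + p' = 8 → R x p' q' := by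
      intro p q p' q' h1 h2 h3
      have := R_symm (x := x) (p := p) (q := q) (by omega) (by omega) h1
      rwa [show 8 - q = p' by omega, show 8 - p = q' by omega] at this
    have b0 : R x 0 0 := R_base hx (show 0 < 8 by norm_num)
    have b1 : R x 1 1 := R_base hx (show 1 < 8 by norm_num)
    have b2 : R x 2 2 := R_base hx (show 2 < 8 by norm_num)
    have b3 : R x 3 3 := R_base hx (show 3 < 8 by norm_num)
    have b4 : R x 0 3 := R_base hx (show 4 < 8 by norm_num)
    have b5 : R x 1 4 := R_base hx (show 5 < 8 by norm_num)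
    have b6 : R x 2 5 := R_base hx (show 6 < 8 by norm_num)
    have b7 : R x 0 6 := R_base hx (show 7 < 8 by norm_num)
    have c0 : R x 8 8 := hs b0 rfl rfl
    have c1 : R x 7 7 := hs b1 rfl rfl
    have c2 : R x 6 6 := hs b2 rfl rfl
    have c3 : R x 5 5 := hs b3 rfl rfl
    have c4 : R x 5 8 := hs b4 rfl rfl
    have c5 : R x 4 7 := hs b5 rfl rfl
    have c6 : R x 3 6 := hs b6 rfl rfl
    have c7 : R x 2 8 := hs b7 rfl rfl
    have d0 : R x 4 4 := R_mid rfl
    have d1 : R x 1 7 := R_mid rfl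
    have main : ∀ p ≤ 8, ∀ q ≤ 8, p % 3 = q % 3 → p ≤ q → R x p q := by
      intro p hp q hq h hle
      interval_cases p <;> interval_cases q <;> first
        | (exfalso; omega)
        | assumption
    rcases le_total p q with hle | hle
    · exact main p hp q hq h hle
    · exact R_conj (main q hq p hp h.symm hle)
  · exact R_triv hp hq h

theorem T_all {p q : ℕ} (hp : p ≤ 8) (hq : q ≤ 8) : T (amp x) p q = 0 := by
  by_cases h : (p + 2) % 3 = q % 3
  · have hs : ∀ {p q p' q' : ℕ}, T (amp x) p q = 0 → p + q' = 8 → q + p' = 8 →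
        T (amp x) p' q' = 0 := by
      intro p q p' q' h1 h2 h3
      rw [T_symm (by omega) (by omega), show 8 - p' = q by omega,
        show 8 - q' = p by omega, h1, mul_zero, neg_zero]
    have hm : ∀ {p q : ℕ}, p + q = 8 → T (amp x) p q = 0 := by
      intro p q h
      have h1 := T_symm (x := x) (p := p) (q := q) (by omega) (by omega)
      rw [show 8 - q = p by omega, show 8 - p = q by omega, h] at h1
      norm_num at h1
      exact self_eq_neg.1 h1
    have b0 : T (amp x) 0 2 = 0 := T_base hx (show 0 < 12 by norm_num)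
    have b1 : T (amp x) 1 3 = 0 := T_base hx (show 1 < 12 by norm_num)
    have b2 : T (amp x) 2 4 = 0 := T_base hx (show 2 < 12 by norm_num)
    have b3 : T (amp x) 1 0 = 0 := T_base hx (show 3 < 12 by norm_num)
    have b4 : T (amp x) 2 1 = 0 := T_base hx (show 4 < 12 by norm_num)
    have b5 : T (amp x) 3 2 = 0 := T_base hx (show 5 < 12 by norm_num)
    have b6 : T (amp x) 4 3 = 0 := T_base hx (show 6 < 12 by norm_num)
    have b7 : T (amp x) 4 0 = 0 := T_base hx (show 7 < 12 by norm_num)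
    have b8 : T (amp x) 5 1 = 0 := T_base hx (show 8 < 12 by norm_num)
    have b9 : T (amp x) 0 5 = 0 := T_base hx (show 9 < 12 by norm_num)
    have b10 : T (amp x) 1 6 = 0 := T_base hx (show 10 < 12 by norm_num)
    have b11 : T (amp x) 7 0 = 0 := T_base hx (show 11 < 12 by norm_num)
    have c0 : T (amp x) 6 8 = 0 := hs b0 rfl rfl
    have c1 : T (amp x) 5 7 = 0 := hs b1 rfl rfl
    have c2 : T (amp x) 4 6 = 0 := hs b2 rfl rfl
    have c3 : T (amp x) 8 7 = 0 := hs b3 rfl rfl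
    have c4 : T (amp x) 7 6 = 0 := hs b4 rfl rfl
    have c5 : T (amp x) 6 5 = 0 := hs b5 rfl rfl
    have c6 : T (amp x) 5 4 = 0 := hs b6 rfl rfl
    have c7 : T (amp x) 8 4 = 0 := hs b7 rfl rfl
    have c8 : T (amp x) 7 3 = 0 := hs b8 rfl rfl
    have c9 : T (amp x) 3 8 = 0 := hs b9 rfl rfl
    have c10 : T (amp x) 2 7 = 0 := hs b10 rfl rfl
    have c11 : T (amp x) 8 1 = 0 := hs b11 rfl rfl
    have d0 : T (amp x) 3 5 = 0 := hm rfl
    have d1 : T (amp x) 6 2 = 0 := hm rfl
    have d2 : T (amp x) 0 8 = 0 := hm rfl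
    interval_cases p <;> interval_cases q <;> first
      | (exfalso; omega)
      | assumption
  · exact T_zero hq h

end Pool.Agent.Q233.PI
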